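import Pool.Agent.H8.JS.Targets

/-!
# Nondeterministic Turing machines and spectra, row EB: the input symbols
-/

set_option autoImplicit false

namespace Pool.Agent.H6.JS

open Pool.Agent.H69.Sp Pool.Agent.H69.Mt Pool.Agent.H16.TO Pool.Agent.H8.PL Pool.Agent.H8.JS

theorem pf_eb (hNU : J_NU) (hHS : J_HS) : J_EB := by
  intro x U p E b hU hv hp
  obtain ⟨_, _, hN3, _, _⟩ := hNU
  obtain ⟨h0, _, hH⟩ := hHS x
  have hlen : x.length < 2 ^ x.length := Nat.lt_two_pow_self
  have hlen' := (hN3 x).1
  have hle : ∀ i, num (x.take (x.length - i)) < U := by
    intro i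
    by_cases hi : i = 0
    · subst hi
      rw [h0]
      exact hU
    · by_cases hx : x.length = 0
      · have h1 : x = [] := List.length_eq_zero_iff.mp hx
        subst h1
        simpa using hU
      · have h1 := (hN3 (x.take (x.length - i))).2
        have h2 : (x.take (x.length - i)).length + 1 ≤ x.length := by
          rw [List.length_take]
          omega
        have h3 : 2 ^ ((x.take (x.length - i)).length + 1) ≤ 2 ^ x.length :=
          Nat.pow_le_pow_right (by norm_num) h2
        omega
  constructor
  · rintro ⟨i, hi, i', hi', h, hh, h', hh', k, hk, rfl, hpn, hE, hE', rfl, hb0, hb1⟩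
    have h1 : h = num (x.take (x.length - i)) := (hv i (by omega) h hh).mp hE
    have h2 : h' = num (x.take (x.length - (i + 1))) := (hv (i + 1) (by omega) h' hh').mp hE'
    have h3 : x[p]? = some x[p] := List.getElem?_eq_getElem hp
    have h4 := hH p i x[p] (by omega) h3
    rw [← h1, ← h2] at h4
    rw [h3]
    cases b with
    | false =>
      have h5 := hb0 rfl
      cases h6 : x[p] with
      | false => rfl
      | true =>
        rw [h6] at h4
        simp only [Bool.toNat_true] at h4
        omega
    | true =>
      have h5 := hb1 rfl
      cases h6 : x[p] with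
      | true => rfl
      | false =>
        rw [h6] at h4
        simp only [Bool.toNat_false] at h4
        omega
  · intro hb
    obtain ⟨i, hi⟩ : ∃ i, p + i + 1 = x.length := ⟨x.length - 1 - p, by omega⟩
    have h4 := hH p i b hi hb
    have h5 := hle i
    have h6 := hle (i + 1)
    refine ⟨i, by omega, i + 1, by omega, _, h5, _, h6,
      num (x.take (x.length - (i + 1))) + num (x.take (x.length - (i + 1))), by omega, rfl,
      by omega, ?_, ?_, rfl, ?_, ?_⟩
    · exact (hv i (by omega) _ h5).mpr rfl
    · exact (hv (i + 1) (by omega) _ h6).mpr rfl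
    · intro hb'
      subst hb'
      simp only [Bool.toNat_false] at h4
      omega
    · intro hb'
      subst hb'
      simp only [Bool.toNat_true] at h4
      omega

end Pool.Agent.H6.JS
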